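import Pool.Agent.Rgd.Main

/-!
# Generic global rigidity of dense graphs is decided in deterministic polynomial time

`GGR d G`: `G` is generically globally rigid in `ℝ^d`; `OreCond d t ε G`: any `t` pairwise
non-adjacent vertices of `G` have degree sum at least `(d + ε) n`; `encodeGraph`: `1^n 0` followed by
the adjacency matrix. The algorithm adds, as long as possible, the pairs which are globally linked
in a subgraph with at most `C` vertices, and accepts if all pairs have been added. Derivations of
`ℝ` show that `d + 1` vertices with many common neighbours, or two large cliques joined by many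
disjoint edges, become cliques; for dense graphs a kernel of bounded size remains.
-/

set_option autoImplicit false

open Pool.Rgd Pool.NPC

open Classical in
/-- For all `d > 0`, `t` and `ε > 0` there is a deterministic polynomial time Turing machine which
never accepts a graph that is not generically globally rigid in `ℝ^d`, and which decides generic
global rigidity in `ℝ^d` on all graphs in which any `t` pairwise non-adjacent vertices have degree
sum at least `(d + ε) n`. -/
theorem Pool.Agent.Results.MP_7debd3_co.DenseGraphs.result (d t : ℕ) (hd : 0 < d) (ε : ℝ)
    (hε : 0 < ε) : ∃ f : (Σ n : ℕ, SimpleGraph (Fin n)) → Bool,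
      Nonempty (Turing.TM2ComputableInPolyTime
        (fun x : (Σ n : ℕ, SimpleGraph (Fin n)) => encodeGraph x.2)
        Computability.encodingBoolBool.encode f) ∧
      (∀ (n : ℕ) (G : SimpleGraph (Fin n)), f ⟨n, G⟩ = true → GGR d G) ∧
      ∀ (n : ℕ) (G : SimpleGraph (Fin n)), OreCond d t ε G → (f ⟨n, G⟩ = true ↔ GGR d G) := by
  obtain ⟨C, hC⟩ := exists_constant d t hd ε hε
  refine ⟨fun x => decide (∀ u v, u ≠ v → (clos d C x.2).Adj u v), ?_, ?_, ?_⟩
  · have h1 : PT (fun x : List Bool => [alg d C x]) := PT.cons (PT.alg d C) (PT.const [])
    obtain ⟨M⟩ := h1.polyTime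
    refine ⟨⟨M.toTM2ComputableAux, M.time, fun x => ?_⟩⟩
    have h2 := M.outputsFun (encodeGraph x.2)
    simp only [alg_encodeGraph, id] at h2
    exact h2
  · intro n G h
    exact ggr_of_clos_complete d C G (by simpa using h)
  · intro n G hG
    refine ⟨fun h => ggr_of_clos_complete d C G (by simpa using h), fun h => ?_⟩
    simpa using hC G hG h
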