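import Pool.Agent.Rgd.Main
import Pool.Agent.Sdp.Final

/-!
# Generic global rigidity of partite cographs and of graphs with such a modular quotient

`GGR d G`: `G` is generically globally rigid in `ℝ^d`. `TreeModel G lab H W`: the subgraph on `W` has
a tree model of height `H` with labels `lab`; the graphs with a tree model of some height with `l`
labels are the `l`-partite cographs (`l = 1`: cographs; bounded height: bounded shrub-depth).
`ModularModel d l G`: a partition of the vertices into modules, arbitrary inside, such that the
quotient graph is an `l`-partite cograph and every class with two vertices is non-adjacent to some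
other class or leaves out more than `d` vertices. `encodeGraph`: `1^n 0` followed by the adjacency
matrix. The algorithm is the one of `DenseGraphs`: add, as long as possible, the pairs which are
globally linked in a subgraph with at most `C` vertices.
-/

set_option autoImplicit false

open Pool.Rgd Pool.NPC Pool.Sdp

/-- For all `d > 0` and `l` there is a deterministic polynomial time Turing machine which never
accepts a graph that is not generically globally rigid in `ℝ^d`, and which decides generic global
rigidity in `ℝ^d` on all graphs `G` with a tree model of any height with `l` labels, and on all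
graphs `G` with a partition into modules whose quotient has such a tree model. -/
theorem Pool.Agent.Results.MP_7debd3_co.PartiteCographs.result (d l : ℕ) (hd : 0 < d) :
    ∃ f : (Σ n : ℕ, SimpleGraph (Fin n)) → Bool,
      Nonempty (Turing.TM2ComputableInPolyTime
        (fun x : (Σ n : ℕ, SimpleGraph (Fin n)) => encodeGraph x.2)
        Computability.encodingBoolBool.encode f) ∧
      (∀ (n : ℕ) (G : SimpleGraph (Fin n)), f ⟨n, G⟩ = true → GGR d G) ∧
      (∀ (n : ℕ) (G : SimpleGraph (Fin n)) (lab : Fin n → Fin l) (H : ℕ),
        TreeModel G lab H Finset.univ → (f ⟨n, G⟩ = true ↔ GGR d G)) ∧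
      ∀ (n : ℕ) (G : SimpleGraph (Fin n)), ModularModel d l G → (f ⟨n, G⟩ = true ↔ GGR d G) := by
  classical
  obtain ⟨C, hC⟩ := exists_constant_modular d l hd
  have hf : ∀ (n : ℕ) (G : SimpleGraph (Fin n)), ModularModel d l G →
      (decide (∀ u v, u ≠ v → (clos d C G).Adj u v) = true ↔ GGR d G) := by
    intro n G hG
    refine ⟨fun h => ggr_of_clos_complete d C G (by simpa using h), fun h => ?_⟩
    simpa using hC C le_rfl G hG h
  refine ⟨fun x => decide (∀ u v, u ≠ v → (clos d C x.2).Adj u v), ?_, ?_, ?_, hf⟩
  · have h1 : PT (fun x : List Bool => [alg d C x]) := PT.cons (PT.alg d C) (PT.const [])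
    obtain ⟨M⟩ := h1.polyTime
    refine ⟨⟨M.toTM2ComputableAux, M.time, fun x => ?_⟩⟩
    have h2 := M.outputsFun (encodeGraph x.2)
    simp only [alg_encodeGraph, id] at h2
    exact h2
  · intro n G h
    exact ggr_of_clos_complete d C G (by simpa using h)
  · intro n G lab H hT
    rcases Nat.eq_zero_or_pos n with rfl | hn
    · exact ⟨fun h => ggr_of_clos_complete d C G (by simpa using h), fun _ => by simp⟩
    · exact hf n G (modular_of_tree hn d lab H hT)
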